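import Pool.Agent.H987R2.Main
import Pool.Agent.Helper764.Cop_hc
import Pool.Agent.Helper764.Cop_fe
import Pool.Agent.Helper764.Cop_fnn
import Pool.Agent.Helper764.Cop_int
import Pool.Agent.Helper764.Cop_K

/-!
# The slope at the origin of the copolymer critical curve never equals `1/(1+α)`

For every `α > 0` there is `c > 1/(1+α)` such that for every renewal law with tail exponent `α` and
every charge law (mean `0`, variance `1`, all exponential moments) the critical curve satisfies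
`h_c(λ) ≥ c λ` for all small `λ > 0`.
-/

set_option autoImplicit false
open MeasureTheory ProbabilityTheory Filter Topology
open scoped ENNReal NNReal

namespace Pool.Agent.Results.MP_65efe8_pr.SlopeGap

/-- law of one (gap, sign) pair: gap with law `κ`, sign uniform on `{false, true}`
(`true` means that the excursion lies below the interface, i.e. `ε = -1`) -/
noncomputable def stepLaw (κ : PMF ℕ) : Measure (ℕ × Bool) :=
  κ.toMeasure.prod (PMF.uniformOfFintype Bool).toMeasure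

instance instStepLaw (κ : PMF ℕ) : IsProbabilityMeasure (stepLaw κ) := by
  unfold stepLaw; infer_instance

/-- law of the i.i.d. sequence of (gap, sign) pairs -/
noncomputable def pathMeasure (κ : PMF ℕ) : Measure (ℕ → ℕ × Bool) :=
  Measure.infinitePi (fun _ : ℕ => stepLaw κ)

instance instPathMeasure (κ : PMF ℕ) : IsProbabilityMeasure (pathMeasure κ) := by
  unfold pathMeasure; infer_instance

/-- renewal points `τ_0 = 0`, `τ_j` = sum of the first `j` gaps -/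
def tau (x : ℕ → ℕ × Bool) (j : ℕ) : ℕ := ∑ i ∈ Finset.range j, (x i).1

/-- `Δ_n` = `1` if the excursion `(τ_j, τ_{j+1}]` containing `n` has sign `true`, else `0` -/
noncomputable def Delta (x : ℕ → ℕ × Bool) (n : ℕ) : ℝ :=
  ∑ j ∈ Finset.range n, if tau x j < n ∧ n ≤ tau x (j + 1) ∧ (x j).2 = true then 1 else 0

/-- the copolymer partition function `Z_{N,ω}` at `(λ,h)` -/
noncomputable def Z (κ : PMF ℕ) (lam h : ℝ) (N : ℕ) (ω : ℕ → ℝ) : ℝ :=
  ∫ x, Real.exp (-2 * lam * ∑ n ∈ Finset.Icc 1 N, Delta x n * (ω n + h)) ∂(pathMeasure κ)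

/-- i.i.d. charges with law `ν` (the coordinates `1, 2, ...` are used) -/
noncomputable def disorder (ν : Measure ℝ) [IsProbabilityMeasure ν] : Measure (ℕ → ℝ) :=
  Measure.infinitePi (fun _ : ℕ => ν)

instance instDisorder (ν : Measure ℝ) [IsProbabilityMeasure ν] :
    IsProbabilityMeasure (disorder ν) := by
  unfold disorder; infer_instance

/-- `N⁻¹ E log Z_N` -/
noncomputable def feN (κ : PMF ℕ) (ν : Measure ℝ) [IsProbabilityMeasure ν] (lam h : ℝ) (N : ℕ) : ℝ :=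
  (N : ℝ)⁻¹ * ∫ ω, Real.log (Z κ lam h N ω) ∂(disorder ν)

/-- the free energy `f(λ,h) = lim N⁻¹ E log Z_N` -/
noncomputable def freeEnergy (κ : PMF ℕ) (ν : Measure ℝ) [IsProbabilityMeasure ν] (lam h : ℝ) : ℝ :=
  limUnder atTop (feN κ ν lam h)

/-- the critical curve `h_c(λ) = sup {h ≥ 0 : f(λ,h) > 0}` -/
noncomputable def hc (κ : PMF ℕ) (ν : Measure ℝ) [IsProbabilityMeasure ν] (lam : ℝ) : ℝ :=
  sSup {h : ℝ | 0 ≤ h ∧ 0 < freeEnergy κ ν lam h}

/-- **The slope of the copolymer critical curve at the origin is strictly larger than `1/(1+α)`,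
for every `α > 0`.**  For every `α > 0` there is `c > 1/(1+α)`, depending on `α` only, such that for
every gap law `κ` on the positive integers with `n^{1+α} κ(n) → cK > 0` and every charge law `ν`
with mean `0`, variance `1` and all exponential moments:

* for every `λ > 0`, `h ≥ 0`: `log Z_N` is integrable for large `N`, the limit defining `f(λ,h)`
  exists and is `≥ 0`;
* for every `λ > 0` the set defining `h_c(λ)` is nonempty and bounded above, `h_c(λ) > 0`, and for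
  `h ≥ 0`: `f(λ,h) > 0` iff `h < h_c(λ)`;
* `h_c(λ) ≥ c λ` for all sufficiently small `λ > 0`;
* `h_c(λ)/λ` does not converge to `1/(1+α)` as `λ ↘ 0`. -/
theorem result (α : ℝ) (hα : 0 < α) : ∃ c : ℝ, 1 / (1 + α) < c ∧
    ∀ (κ : PMF ℕ), κ 0 = 0 → ∀ cK : ℝ, 0 < cK →
      Tendsto (fun n : ℕ => (n : ℝ) ^ (1 + α) * (κ n).toReal) atTop (𝓝 cK) →
    ∀ (ν : Measure ℝ) [IsProbabilityMeasure ν], ∫ x, x ∂ν = 0 → ∫ x, x ^ 2 ∂ν = 1 →
      (∀ t : ℝ, Integrable (fun x => Real.exp (t * x)) ν) →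
    (∀ lam h : ℝ, 0 < lam → 0 ≤ h →
      (∀ᶠ N in atTop, Integrable (fun ω => Real.log (Z κ lam h N ω)) (disorder ν)) ∧
      Tendsto (feN κ ν lam h) atTop (𝓝 (freeEnergy κ ν lam h)) ∧ 0 ≤ freeEnergy κ ν lam h) ∧
    (∀ lam : ℝ, 0 < lam → Set.Nonempty {h : ℝ | 0 ≤ h ∧ 0 < freeEnergy κ ν lam h} ∧
      BddAbove {h : ℝ | 0 ≤ h ∧ 0 < freeEnergy κ ν lam h} ∧ 0 < hc κ ν lam ∧
      ∀ h : ℝ, 0 ≤ h → (0 < freeEnergy κ ν lam h ↔ h < hc κ ν lam)) ∧
    (∀ᶠ lam in 𝓝[>] (0 : ℝ), c * lam ≤ hc κ ν lam) ∧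
    ¬ Tendsto (fun lam : ℝ => hc κ ν lam / lam) (𝓝[>] (0 : ℝ)) (𝓝 (1 / (1 + α))) := by
  obtain ⟨η, hη, hmain⟩ := H987R2.main_data hα
  refine ⟨1 / (1 + α) + η, by linarith, ?_⟩
  intro κ hκ0 cK hcK htail ν hν hmean hvar hexp
  obtain ⟨l0, hl0, hpos⟩ := hmain κ hκ0 cK hcK htail ν hν hmean hvar hexp
  let D : ∀ lam : ℝ, 0 < lam → Cop764.Data := fun lam hlam =>
    ⟨κ, hκ0, α, cK, hα, hcK, htail, ν, hν, hmean, hvar, hexp, lam, hlam⟩
  have hcrit : ∀ lam : ℝ, 0 < lam → Set.Nonempty {h : ℝ | 0 ≤ h ∧ 0 < freeEnergy κ ν lam h} ∧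
      BddAbove {h : ℝ | 0 ≤ h ∧ 0 < freeEnergy κ ν lam h} ∧ 0 < hc κ ν lam ∧
      ∀ h : ℝ, 0 ≤ h → (0 < freeEnergy κ ν lam h ↔ h < hc κ ν lam) := by
    intro lam hlam
    obtain ⟨x, hx0, hx, _⟩ := Cop764.M_hc.J_hc (D lam hlam)
    have hx' : ∀ h : ℝ, 0 ≤ h → (0 < freeEnergy κ ν lam h ↔ h < x) := hx
    have hset : {h : ℝ | 0 ≤ h ∧ 0 < freeEnergy κ ν lam h} = Set.Ico 0 x := by
      ext h
      simp only [Set.mem_setOf_eq, Set.mem_Ico]
      constructor
      · rintro ⟨h1, h2⟩; exact ⟨h1, (hx' h h1).1 h2⟩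
      · rintro ⟨h1, h2⟩; exact ⟨h1, (hx' h h1).2 h2⟩
    have hcx : hc κ ν lam = x := by
      unfold hc
      rw [hset, csSup_Ico hx0]
    rw [hset, hcx]
    exact ⟨⟨0, le_rfl, hx0⟩, bddAbove_Ico, hx0, hx'⟩
  have hev : ∀ᶠ lam in 𝓝[>] (0 : ℝ), (1 / (1 + α) + η) * lam ≤ hc κ ν lam := by
    filter_upwards [Ioo_mem_nhdsGT hl0] with lam hlam
    have h1 := hpos (D lam hlam.1) rfl rfl rfl hlam.2
    have h2 : 0 < freeEnergy κ ν lam ((1 / (1 + α) + η) * lam) := by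
      rw [one_div]; exact h1
    have h3 : 0 ≤ (1 / (1 + α) + η) * lam := by
      have := hlam.1
      positivity
    exact (((hcrit lam hlam.1).2.2.2 _ h3).1 h2).le
  refine ⟨?_, hcrit, hev, ?_⟩
  · intro lam h hlam hh
    obtain ⟨c0, n0, hK⟩ := Cop764.M_K.J_K (D lam hlam)
    have h1 := (Cop764.M_int.J_int (D lam hlam) c0 n0 hK h hh).2.2
    exact ⟨eventually_atTop.2 ⟨n0, fun N hN => h1 N hN⟩,
      (Cop764.M_fe.J_fe (D lam hlam) h hh).1, Cop764.M_fnn.J_fnn (D lam hlam) h hh⟩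
  · intro hT
    have h1 := hT.eventually_lt_const (show 1 / (1 + α) < 1 / (1 + α) + η by linarith)
    obtain ⟨lam, h2, h3, h4⟩ := (h1.and (hev.and self_mem_nhdsWithin)).exists
    have h5 : (0:ℝ) < lam := h4
    rw [div_lt_iff₀ h5] at h2
    linarith

end Pool.Agent.Results.MP_65efe8_pr.SlopeGap
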